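import Pool.Agent.H21.TU.Sq

/-!
# Project FULL: the subdivision operator on sequences of vertices

`Ez n P c s t` is the sum of `c` over the lattice paths from `(0, 0)` to `(P - 1, n + 1 - P)`, the
vertex `(i, j)` of a path being `pr (s i) (t j)`, with the signs of the shuffles. `SD n c s` is the
sum of `Ez n (a + 1) c s (sh a s)` over `a ≤ n`: the edgewise subdivision of the simplex `s`.
-/

set_option autoImplicit false

namespace Pool.Agent.H16.FU

open Pool.Agent.H21.TU

variable {V W F : Type*} [Field F]

/-- put `x` at the place `n` and after it -/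
def app (n : ℕ) (x : W) (u : ℕ → W) : ℕ → W := fun j => if j < n then u j else x

/-- the sum over the lattice paths -/
def Ez (pr : V → V → W) : ℕ → ℕ → K W F → (ℕ → V) → (ℕ → V) → F
  | 0, P, c, s, t => if P = 1 then c (fun _ => pr (s 0) (t 0)) else 0
  | _ + 1, 0, _, _, _ => 0
  | n + 1, P + 1, c, s, t =>
    Ez pr n (P + 1) (fun u => c (app (n + 1) (pr (s P) (t (n + 1 - P))) u)) s t +
      (-1) ^ (n + 1 - P) *
        Ez pr n P (fun u => c (app (n + 1) (pr (s P) (t (n + 1 - P))) u)) s t

variable {pr : V → V → W}

theorem Ez_zero_left (n : ℕ) (c : K W F) (s t : ℕ → V) : Ez pr n 0 c s t = 0 := by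
  cases n <;> simp [Ez]

theorem Ez_big {n : ℕ} : ∀ {P : ℕ}, n + 1 < P → ∀ (c : K W F) (s t : ℕ → V),
    Ez pr n P c s t = 0 := by
  induction n with
  | zero =>
    intro P hP c s t
    simp only [Ez]
    rw [if_neg (by omega)]
  | succ n ih =>
    intro P hP c s t
    cases P with
    | zero => exact Ez_zero_left _ _ _ _
    | succ P =>
      simp only [Ez]
      rw [ih (by omega), ih (by omega), mul_zero, add_zero]

theorem Ez_add (n : ℕ) : ∀ (P : ℕ) (c c' : K W F) (s t : ℕ → V),
    Ez pr n P (fun u => c u + c' u) s t = Ez pr n P c s t + Ez pr n P c' s t := by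
  induction n with
  | zero =>
    intro P c c' s t
    simp only [Ez]
    split_ifs
    · rfl
    · rw [add_zero]
  | succ n ih =>
    intro P c c' s t
    cases P with
    | zero => simp only [Ez_zero_left, add_zero]
    | succ P =>
      simp only [Ez]
      rw [ih, ih]
      ring

theorem Ez_smul (n : ℕ) : ∀ (P : ℕ) (a : F) (c : K W F) (s t : ℕ → V),
    Ez pr n P (fun u => a * c u) s t = a * Ez pr n P c s t := by
  induction n with
  | zero =>
    intro P a c s t
    simp only [Ez]
    split_ifs
    · rfl
    · rw [mul_zero]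
  | succ n ih =>
    intro P a c s t
    cases P with
    | zero => simp only [Ez_zero_left, mul_zero]
    | succ P =>
      simp only [Ez]
      rw [ih, ih]
      ring

/-- dependence on the sequences -/
theorem Ez_congr (n : ℕ) : ∀ (P : ℕ) (c : K W F) (s s' t t' : ℕ → V), (∀ i < P, s i = s' i) →
    (∀ j < n + 2 - P, t j = t' j) → Ez pr n P c s t = Ez pr n P c s' t' := by
  induction n with
  | zero =>
    intro P c s s' t t' hs ht
    simp only [Ez]
    by_cases h : P = 1
    · rw [if_pos h, if_pos h, hs 0 (by omega), ht 0 (by omega)]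
    · rw [if_neg h, if_neg h]
  | succ n ih =>
    intro P c s s' t t' hs ht
    cases P with
    | zero => simp only [Ez_zero_left]
    | succ P =>
      by_cases hP : n + 2 < P + 1
      · rw [Ez_big hP, Ez_big hP]
      · simp only [Ez]
        rw [hs P (by omega), ht (n + 1 - P) (by omega),
          ih (P + 1) _ s s' t t' hs (fun j hj => ht j (by omega)),
          ih P _ s s' t t' (fun i hi => hs i (by omega)) (fun j hj => ht j (by omega))]

/-- dependence on the cochain -/
theorem Ez_cong (n : ℕ) : ∀ (P : ℕ) (c c' : K W F) (s t : ℕ → V), (∀ u : ℕ → W,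
    (∀ j, ∃ i < P, ∃ l < n + 2 - P, u j = pr (s i) (t l)) → c u = c' u) →
    Ez pr n P c s t = Ez pr n P c' s t := by
  induction n with
  | zero =>
    intro P c c' s t h
    simp only [Ez]
    by_cases hP : P = 1
    · rw [if_pos hP, if_pos hP]
      exact h _ fun j => ⟨0, by omega, 0, by omega, rfl⟩
    · rw [if_neg hP, if_neg hP]
  | succ n ih =>
    intro P c c' s t h
    cases P with
    | zero => simp only [Ez_zero_left]
    | succ P =>
      by_cases hP : n + 2 < P + 1
      · rw [Ez_big hP, Ez_big hP]
      · simp only [Ez]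
        have key : ∀ u : ℕ → W, (∀ j, ∃ i < P + 1, ∃ l < n + 3 - (P + 1),
            u j = pr (s i) (t l)) → c (app (n + 1) (pr (s P) (t (n + 1 - P))) u) =
              c' (app (n + 1) (pr (s P) (t (n + 1 - P))) u) := by
          intro u hu
          refine h _ fun j => ?_
          unfold app
          by_cases hj : j < n + 1
          · rw [if_pos hj]
            exact hu j
          · rw [if_neg hj]
            exact ⟨P, by omega, n + 1 - P, by omega, rfl⟩
        rw [ih (P + 1) _ (fun u => c' (app (n + 1) (pr (s P) (t (n + 1 - P))) u)) s t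
            (fun u hu => key u fun j => by
              obtain ⟨i, hi, l, hl, e⟩ := hu j
              exact ⟨i, hi, l, by omega, e⟩),
          ih P _ (fun u => c' (app (n + 1) (pr (s P) (t (n + 1 - P))) u)) s t
            (fun u hu => key u fun j => by
              obtain ⟨i, hi, l, hl, e⟩ := hu j
              exact ⟨i, by omega, l, by omega, e⟩)]

theorem app_del {n i : ℕ} (hi : i ≤ n) (x : W) (u : ℕ → W) :
    del i (app (n + 1) x u) = app n x (del i u) := by
  funext j
  simp only [del, app]
  by_cases h1 : j < i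
  · rw [if_pos h1, if_pos (by omega), if_pos (by omega), if_pos h1]
  · rw [if_neg h1]
    by_cases h2 : j < n
    · rw [if_pos (by omega), if_pos h2, if_neg h1]
    · rw [if_neg (by omega), if_neg h2]

/-- the last vertex -/
theorem d_app {n : ℕ} {c : K W F} (hc : Dep (n + 1) c) (x : W) (u : ℕ → W) :
    d (n + 1) c (app (n + 2) x u) =
      d n (fun v => c (app (n + 1) x v)) u + (-1) ^ n * c u := by
  unfold d
  rw [Finset.sum_range_succ]
  congr 1
  · refine Finset.sum_congr rfl fun i hi => ?_
    rw [app_del (by have := Finset.mem_range.1 hi; omega)]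
  · rw [pow_add, neg_one_sq, mul_one]
    congr 1
    refine hc _ _ fun j hj => ?_
    unfold del app
    rw [if_pos (by omega), if_pos (by omega)]

omit [Field F] in
theorem Dep_app {n : ℕ} {c : K W F} (hc : Dep (n + 1) c) (x : W) :
    Dep n (fun v => c (app (n + 1) x v)) := by
  intro u v h
  refine hc _ _ fun j hj => ?_
  unfold app
  split_ifs with h1
  · exact h j (by omega)
  · rfl

/-- **The boundary rule of the lattice paths.** -/
theorem Ez_d (n : ℕ) : ∀ (P : ℕ) (c : K W F) (s t : ℕ → V), Dep n c →
    Ez pr (n + 1) (P + 1) (d n c) s t =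
      ∑ k ∈ Finset.range (P + 1), (-1) ^ k * Ez pr n P c (del k s) t +
      (-1) ^ P * ∑ k ∈ Finset.range (n + 2 - P), (-1) ^ k * Ez pr n (P + 1) c s (del k t) := by
  induction n with
  | zero =>
    intro P c s t hc
    rcases Nat.lt_or_ge 1 P with hP | hP
    · rw [Ez_big (by omega)]
      simp only [Ez_big (show 0 + 1 < P by omega), Ez_big (show 0 + 1 < P + 1 by omega), mul_zero,
        Finset.sum_const_zero, add_zero]
    · have e0 : ∀ x y : W, d 0 c (app (0 + 1) x fun _ => y) = c (fun _ => x) - c fun _ => y := by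
        intro x y
        unfold d
        rw [Finset.sum_range_succ, Finset.sum_range_one, pow_zero, one_mul, pow_one, neg_one_mul,
          ← sub_eq_add_neg]
        have e1 : del 0 (app (0 + 1) x fun _ => y) = fun _ => x := by
          funext j
          simp [del, app]
        rw [e1]
        congr 1
        refine hc _ _ fun j hj => ?_
        obtain rfl : j = 0 := by omega
        simp [del, app]
      rcases (show P = 0 ∨ P = 1 by omega) with rfl | rfl
      · simp only [Ez, e0, Finset.sum_range_succ]
        simp [del]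
        ring
      · simp only [Ez, e0, Finset.sum_range_succ]
        simp [del]
        ring
  | succ n ih =>
    intro P c s t hc
    rcases Nat.lt_or_ge (n + 2) P with hP | hP
    · rw [Ez_big (by omega)]
      simp only [Ez_big (show n + 1 + 1 < P by omega), Ez_big (show n + 1 + 1 < P + 1 by omega),
        mul_zero, Finset.sum_const_zero, add_zero]
    obtain ⟨q, hq⟩ : ∃ q, n + 2 = P + q := ⟨n + 2 - P, by omega⟩
    have hq1 : n + 1 + 1 - P = q := by omega
    have hsum : n + 1 + 2 - P = q + 1 := by omega
    obtain ⟨x, hx⟩ : ∃ x, x = pr (s P) (t q) := ⟨_, rfl⟩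
    obtain ⟨c', hc'⟩ : ∃ c' : K W F, c' = fun v => c (app (n + 1) x v) := ⟨_, rfl⟩
    have hDc' : Dep n c' := by rw [hc']; exact Dep_app hc x
    have hsg : ((-1 : F) ^ n) = (-1) ^ P * (-1) ^ q := by
      rw [← pow_add, ← hq, pow_add, neg_one_sq, mul_one]
    have hq2 : ((-1 : F) ^ q) * (-1) ^ q = 1 := by
      rw [← mul_pow, neg_one_mul, neg_neg, one_pow]
    have hP2 : ((-1 : F) ^ P) * (-1) ^ P = 1 := by
      rw [← mul_pow, neg_one_mul, neg_neg, one_pow]
    -- the left side
    have hL : ∀ P', Ez pr (n + 1) P' (fun u => d (n + 1) c (app (n + 1 + 1) x u)) s t =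
        Ez pr (n + 1) P' (d n c') s t + (-1) ^ n * Ez pr (n + 1) P' c s t := by
      intro P'
      rw [← Ez_smul, ← Ez_add]
      congr 1
      funext u
      rw [d_app hc, hc']
    rw [Ez, hq1, ← hx, hL, hL]
    rw [ih P c' s t hDc', hsum, Finset.sum_range_succ _ q]
    -- the last terms of the right side
    have hlastt : Ez pr (n + 1) (P + 1) c s (del q t) = Ez pr (n + 1) (P + 1) c s t :=
      Ez_congr (n + 1) (P + 1) c s s (del q t) t (fun _ _ => rfl) fun j hj => by
        unfold del
        rw [if_pos (by omega)]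
    have hlasts : Ez pr (n + 1) P c (del P s) t = Ez pr (n + 1) P c s t :=
      Ez_congr (n + 1) P c (del P s) s t t (fun i hi => by
        unfold del
        rw [if_pos hi]) fun _ _ => rfl
    have hR1 : ∑ k ∈ Finset.range (P + 1), (-1) ^ k * Ez pr (n + 1) P c (del k s) t =
        ∑ k ∈ Finset.range P, (-1) ^ k * Ez pr (n + 1) P c (del k s) t +
          (-1) ^ P * Ez pr (n + 1) P c s t := by
      rw [Finset.sum_range_succ, hlasts]
    rw [hR1, hlastt]
    -- the terms of the second sum
    have hB : ∀ k ∈ Finset.range q, (-1 : F) ^ k * Ez pr (n + 1) (P + 1) c s (del k t) =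
        (-1) ^ k * Ez pr n (P + 1) c' s (del k t) -
          (-1) ^ q * ((-1) ^ k * Ez pr n P c' s (del k t)) := by
      intro k hk
      have hk' := Finset.mem_range.1 hk
      rw [Ez]
      have e1 : pr (s P) (del k t (n + 1 - P)) = x := by
        rw [hx]
        unfold del
        rw [if_neg (by omega), show n + 1 - P + 1 = q by omega]
      rw [e1, ← hc']
      have e2 : n + 1 - P = q - 1 := by omega
      have e3 : ((-1 : F) ^ (q - 1)) = -(-1) ^ q := by
        obtain ⟨q', rfl⟩ : ∃ q', q = q' + 1 := ⟨q - 1, by omega⟩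
        rw [Nat.add_sub_cancel, pow_succ]
        ring
      rw [e2, e3]
      ring
    rw [Finset.sum_congr rfl hB, Finset.sum_sub_distrib, ← Finset.mul_sum]
    cases P with
    | zero =>
      simp only [Ez_zero_left, mul_zero, Finset.sum_const_zero, add_zero, sub_zero, pow_zero,
        one_mul, zero_add]
      have e4 : n + 2 - 0 = q := by omega
      have e5 : ((-1 : F) ^ n) = (-1) ^ q := by rw [hsg, pow_zero, one_mul]
      rw [e4, e5]
    | succ P =>
      have hA : ∀ k ∈ Finset.range (P + 1), (-1 : F) ^ k * Ez pr (n + 1) (P + 1) c (del k s) t =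
          (-1) ^ k * Ez pr n (P + 1) c' (del k s) t +
            (-1) ^ q * ((-1) ^ k * Ez pr n P c' (del k s) t) := by
        intro k hk
        have hk' := Finset.mem_range.1 hk
        rw [Ez]
        have e1 : pr (del k s P) (t (n + 1 - P)) = x := by
          rw [hx]
          unfold del
          rw [if_neg (by omega), show n + 1 - P = q by omega]
        rw [e1, ← hc', show n + 1 - P = q by omega]
        ring
      rw [Finset.sum_congr rfl hA, Finset.sum_add_distrib, ← Finset.mul_sum,
        ih P c' s t hDc', show n + 2 - P = q + 1 by omega, show n + 2 - (P + 1) = q by omega,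
        Finset.sum_range_succ _ (P + 1), Finset.sum_range_succ _ q, hsg]
      have e6 : Ez pr n (P + 1) c' (del (P + 1) s) t = Ez pr n (P + 1) c' s t :=
        Ez_congr n (P + 1) c' _ _ _ _ (fun i hi => by
          unfold del
          rw [if_pos hi]) fun _ _ => rfl
      have e7 : Ez pr n (P + 1) c' s (del q t) = Ez pr n (P + 1) c' s t :=
        Ez_congr n (P + 1) c' _ _ _ _ (fun _ _ => rfl) fun j hj => by
          unfold del
          rw [if_pos (by omega)]
      rw [e6, e7]
      have e8 : ((-1 : F) ^ (P + 1)) = -(-1) ^ P := by rw [pow_succ]; ring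
      have hPP : ((-1 : F) ^ P) * (-1) ^ P = 1 := by
        rw [← mul_pow, neg_one_mul, neg_neg, one_pow]
      rw [e8]
      linear_combination ((-1 : F) ^ P * Ez pr n (P + 1) c' s t -
        (-1) ^ P * Ez pr (n + 1) (P + 1) c s t) * hq2

/-- the edgewise subdivision -/
def SD (pr : V → V → W) (n : ℕ) (c : K W F) : K V F := fun s =>
  ∑ a ∈ Finset.range (n + 1), Ez pr n (a + 1) c s (sh a s)

/-- **The subdivision is a chain map.** -/
theorem SD_d (n : ℕ) {c : K W F} (hc : Dep n c) (s : ℕ → V) :
    SD pr (n + 1) (d n c) s = d n (SD pr n c) s := by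
  have hR : d n (SD pr n c) s = ∑ a ∈ Finset.range (n + 1),
      (∑ k ∈ Finset.Ico 0 (a + 1), (-1 : F) ^ k * Ez pr n (a + 1) c (del k s) (sh (a + 1) s) +
        ∑ k ∈ Finset.Ico (a + 1) (n + 2), (-1 : F) ^ k *
          Ez pr n (a + 1) c s (sh a (del k s))) := by
    unfold d SD
    simp only [Finset.mul_sum]
    rw [Finset.sum_comm]
    refine Finset.sum_congr rfl fun a ha => ?_
    have ha' := Finset.mem_range.1 ha
    rw [Finset.range_eq_Ico, ← Finset.sum_Ico_consecutive _ (Nat.zero_le (a + 1))
      (show a + 1 ≤ n + 2 by omega)]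
    congr 1
    · refine Finset.sum_congr rfl fun k hk => ?_
      have hk' := Finset.mem_Ico.1 hk
      rw [sh_del_le (show k ≤ a by omega)]
    · refine Finset.sum_congr rfl fun k hk => ?_
      have hk' := Finset.mem_Ico.1 hk
      rw [Ez_congr n (a + 1) c (del k s) s _ _ (fun i hi => by
        unfold del
        rw [if_pos (by omega)]) fun _ _ => rfl]
  rw [hR]
  unfold SD
  rw [Finset.sum_congr rfl fun a _ => Ez_d n a c s (sh a s) hc, Finset.sum_add_distrib,
    Finset.sum_range_succ' _ (n + 1), Finset.sum_range_succ _ (n + 1)]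
  simp only [Ez_zero_left, mul_zero, Finset.sum_const_zero, add_zero,
    Ez_big (show n + 1 < n + 1 + 1 by omega)]
  rw [← Finset.sum_add_distrib]
  refine Finset.sum_congr rfl fun a ha => ?_
  have ha' := Finset.mem_range.1 ha
  rw [Finset.sum_range_succ _ (a + 1), Finset.range_eq_Ico]
  have h1 : (-1 : F) ^ a * ∑ k ∈ Finset.range (n + 2 - a),
      (-1) ^ k * Ez pr n (a + 1) c s (del k (sh a s)) =
      ∑ k ∈ Finset.Ico a (n + 2), (-1) ^ k * Ez pr n (a + 1) c s (sh a (del k s)) := by
    rw [Finset.mul_sum, Finset.sum_Ico_eq_sum_range]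
    refine Finset.sum_congr rfl fun k hk => ?_
    rw [sh_del_ge (show a ≤ a + k by omega), Nat.add_sub_cancel_left, pow_add]
    ring
  rw [h1, Finset.sum_eq_sum_Ico_succ_bot (show a < n + 2 by omega), sh_del_le (le_refl a),
    Ez_congr n (a + 1) c (del (a + 1) s) s _ _ (fun i hi => by
      unfold del
      rw [if_pos hi]) fun _ _ => rfl, pow_succ]
  ring

/-- the only path without steps in the second direction -/
theorem Ez_full (n : ℕ) : ∀ (c : K W F) (s t : ℕ → V), Dep n c →
    Ez pr n (n + 1) c s t = c (fun i => pr (s i) (t 0)) := by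
  induction n with
  | zero =>
    intro c s t hc
    simp only [Ez]
    rw [if_pos trivial]
    refine hc _ _ fun j hj => ?_
    obtain rfl : j = 0 := by omega
    rfl
  | succ n ih =>
    intro c s t hc
    rw [Ez, Ez_big (show n + 1 < n + 1 + 1 by omega), zero_add, Nat.sub_self, pow_zero, one_mul,
      ih _ s t (Dep_app hc _)]
    refine hc _ _ fun j hj => ?_
    simp only [app]
    by_cases hj' : j < n + 1
    · rw [if_pos hj']
    · obtain rfl : j = n + 1 := by omega
      rw [if_neg hj']

/-- cochains which vanish on degenerate sequences, when `pr` depends only on the first entry -/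
theorem Ez_degen (n : ℕ) : ∀ (P : ℕ) (c : K W F) (s t : ℕ → V) (σ : ℕ → W), Dep n c →
    (∀ u : ℕ → W, (∃ j < n, u j = u (j + 1)) → c u = 0) →
    (∀ i < P, ∀ j < n + 2 - P, pr (s i) (t j) = σ i) → P ≤ n → Ez pr n P c s t = 0 := by
  induction n with
  | zero =>
    intro P c s t σ hc hn hp hP
    obtain rfl : P = 0 := by omega
    exact Ez_zero_left _ _ _ _
  | succ n ih =>
    intro P c s t σ hc hn hp hP
    cases P with
    | zero => exact Ez_zero_left _ _ _ _
    | succ P =>
      have hdeg : ∀ x : W, ∀ u : ℕ → W, (∃ j < n, u j = u (j + 1)) →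
          c (app (n + 1) x u) = 0 := by
        rintro x u ⟨j, hj, hu⟩
        refine hn _ ⟨j, by omega, ?_⟩
        simp only [app]
        rw [if_pos (by omega), if_pos (by omega), hu]
      rw [Ez, ih P _ s t σ (Dep_app hc _) (hdeg _) (fun i hi j hj => hp i (by omega) j (by omega))
        (by omega), mul_zero, add_zero]
      rcases Nat.lt_or_ge n (P + 1) with h | h
      · obtain rfl : P = n := by omega
        rw [Ez_full P _ s t (Dep_app hc _)]
        refine hn _ ⟨P, by omega, ?_⟩
        simp only [app]
        rw [if_pos (by omega), if_neg (by omega), hp P (by omega) 0 (by omega),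
          hp P (by omega) _ (by omega)]
      · exact ih (P + 1) _ s t σ (Dep_app hc _) (hdeg _)
          (fun i hi j hj => hp i hi j (by omega)) h

/-- **The subdivision is a left inverse of the pull back.** -/
theorem SD_id (n : ℕ) (c : K W F) (s : ℕ → V) (σ : ℕ → W) (hc : Dep n c)
    (hn : ∀ u : ℕ → W, (∃ j < n, u j = u (j + 1)) → c u = 0)
    (hp : ∀ i ≤ n, ∀ j ≤ n, i ≤ j → pr (s i) (s j) = σ i) : SD pr n c s = c σ := by
  unfold SD
  rw [Finset.sum_range_succ, Finset.sum_eq_zero, zero_add]
  · rw [Ez_full n c s _ hc]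
    refine hc _ _ fun j hj => ?_
    rw [← hp j hj n le_rfl hj]
    show pr (s j) (s (0 + n)) = _
    rw [zero_add]
  · intro a ha
    have ha' := Finset.mem_range.1 ha
    refine Ez_degen n (a + 1) c s _ σ hc hn (fun i hi j hj => ?_) (by omega)
    exact hp i (by omega) (j + a) (by omega) (by omega)

/-- change of the vertices -/
theorem Ez_pb {V' W' : Type*} {pr' : V' → V' → W'} (g : V → V') (h : W → W')
    (hg : ∀ v w, h (pr v w) = pr' (g v) (g w)) (n : ℕ) : ∀ (P : ℕ) (c : K W' F) (s t : ℕ → V),
    Ez pr n P (pb h c) s t = Ez pr' n P c (fun j => g (s j)) (fun j => g (t j)) := by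
  induction n with
  | zero =>
    intro P c s t
    simp only [Ez, pb, hg]
  | succ n ih =>
    intro P c s t
    cases P with
    | zero => simp only [Ez_zero_left]
    | succ P =>
      simp only [Ez]
      have e : (fun u => pb h c (app (n + 1) (pr (s P) (t (n + 1 - P))) u)) =
          pb h fun u => c (app (n + 1) (pr' (g (s P)) (g (t (n + 1 - P)))) u) := by
        funext u
        simp only [pb]
        congr 1
        funext j
        simp only [app]
        split_ifs
        · rfl
        · exact hg _ _
      rw [e, ih, ih]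

theorem SD_pb {V' W' : Type*} {pr' : V' → V' → W'} (g : V → V') (h : W → W')
    (hg : ∀ v w, h (pr v w) = pr' (g v) (g w)) (n : ℕ) (c : K W' F) :
    SD pr n (pb h c) = pb g (SD pr' n c) := by
  funext s
  unfold SD pb
  refine Finset.sum_congr rfl fun a _ => ?_
  exact Ez_pb g h hg n (a + 1) c s (sh a s)

end Pool.Agent.H16.FU
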