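import Pool.Agent.H75.TH.FixB
import Pool.Agent.H25.FU.Psub

/-!
# Project FULL: the `P`-part of the folded band
-/

set_option autoImplicit false

namespace Pool.Agent.H16.FU

open Pool.Agent.H47.ST
open Pool.Agent.H75.TH
open Pool.Agent.H25.FU

variable {ι κ : Type*} [Fintype ι] [Fintype κ]

omit [Fintype ι] [Fintype κ] in
/-- the embedding of the folded grid and the permutations -/
theorem Pco_map {s : ι → κ} (hs : Function.Surjective s) {γ : Equiv.Perm ι} {γ' : Equiv.Perm κ}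
    (h : ∀ y : κ → ℤ, (y ∘ s) ∘ γ = (y ∘ γ') ∘ s) (σ : Finset (κ → ℤ)) :
    Free_mp γ (σ.map (TransN_em hs)) = (Free_mp γ' σ).map (TransN_em hs) := by
  ext v
  simp only [Free_mp, Finset.mem_map, Equiv.coe_toEmbedding]
  constructor
  · rintro ⟨_, ⟨y, hy, rfl⟩, rfl⟩
    exact ⟨pe γ' y, ⟨y, hy, rfl⟩, (h y).symm⟩
  · rintro ⟨_, ⟨y, hy, rfl⟩, rfl⟩
    exact ⟨TransN_em hs y, ⟨y, hy, rfl⟩, h y⟩

omit [Fintype ι] [Fintype κ] in
theorem Pco_symm {s : ι → κ} {γ : Equiv.Perm ι} {γ' : Equiv.Perm κ}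
    (h : ∀ y : κ → ℤ, (y ∘ s) ∘ γ = (y ∘ γ') ∘ s) (y : κ → ℤ) :
    (y ∘ s) ∘ (γ⁻¹ : Equiv.Perm ι) = (y ∘ (γ'⁻¹ : Equiv.Perm κ)) ∘ s := by
  have h1 := h (y ∘ (γ'⁻¹ : Equiv.Perm κ))
  have h2 : (y ∘ (γ'⁻¹ : Equiv.Perm κ)) ∘ γ' = y := by
    funext i
    simp
  rw [h2] at h1
  rw [← h1]
  funext i
  simp

/-- the extension by zero commutes with the permutations -/
theorem Pco_ext {F : Type*} [Field F] {s : ι → κ} (hs : Function.Surjective s)
    {γ : Equiv.Perm ι} {γ' : Equiv.Perm κ} (h : ∀ y : κ → ℤ, (y ∘ s) ∘ γ = (y ∘ γ') ∘ s)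
    (c : Co κ F) : Tp γ (TransN_ext hs F c) = TransN_ext hs F (Tp γ' c) := by
  funext σ
  rw [Free_Tp]
  by_cases h1 : ∃ σ' : Finset (κ → ℤ), σ'.map (TransN_em hs) = σ
  · obtain ⟨σ', rfl⟩ := h1
    rw [Pco_map hs h, TransN_ext_map, TransN_ext_map, Free_Tp]
  · have h2 : TransN_ext hs F (Tp γ' c) σ = 0 := by
      by_contra h3
      obtain ⟨σ', h4, -⟩ := TransN_ext_ne hs h3
      exact h1 ⟨σ', h4⟩
    rw [h2]
    by_contra h3
    obtain ⟨σ', h4, -⟩ := TransN_ext_ne hs h3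
    refine h1 ⟨Free_mp (γ'⁻¹) σ', ?_⟩
    rw [← Pco_map hs (Pco_symm h), h4, ← Free_mul]
    have h5 : Free_mp (γ * γ⁻¹ : Equiv.Perm ι) σ = σ := by
      rw [mul_inv_cancel, Free_one]
    exact h5

theorem Pco_ext_pow {F : Type*} [Field F] {s : ι → κ} (hs : Function.Surjective s)
    {γ : Equiv.Perm ι} {γ' : Equiv.Perm κ} {u : ℕ}
    (h : ∀ y : κ → ℤ, (y ∘ s) ∘ (γ ^ u : Equiv.Perm ι) = (y ∘ γ') ∘ s)
    (i : ℕ) (c : Co κ F) :
    (((Tp γ) ^ u) ^ i) (TransN_ext hs F c) = TransN_ext hs F (((Tp γ') ^ i) c) := by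
  have h1 : ∀ x : Co ι F, ((Tp γ) ^ u) x = Tp (γ ^ u) x := by
    intro x
    funext σ
    rw [Free_pow, Free_Tp]
  induction i with
  | zero => rfl
  | succ i ih =>
    rw [pow_succ', pow_succ', Module.End.mul_apply, Module.End.mul_apply, ih, h1, Pco_ext hs h]

/-- the extension by zero commutes with the projections -/
theorem Pco_ext_Pk {F : Type*} [Field F] {s : ι → κ} (hs : Function.Surjective s)
    {γ : Equiv.Perm ι} {γ' : Equiv.Perm κ} {u : ℕ}
    (h : ∀ y : κ → ℤ, (y ∘ s) ∘ (γ ^ u : Equiv.Perm ι) = (y ∘ γ') ∘ s)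
    (k : ℕ) (c : Co κ F) : Pk ((Tp γ) ^ u) k (TransN_ext hs F c) =
      TransN_ext hs F (Pk (Tp γ') k c) := by
  rw [Pk_apply, Pk_apply, map_sub, map_smul, map_sum]
  congr 2
  exact Finset.sum_congr rfl fun i _ => Pco_ext_pow hs h i c

omit [Fintype ι] in
/-- a permutation acts on the function spaces -/
theorem Pco_T_Pv {F : Type*} [Field F] {π γ : Equiv.Perm ι} {L : AddSubgroup (ι → ℤ)}
    (hγπ : γ * π = π * γ) (hL : ∀ l ∈ L, l ∘ γ = l) {X A B : Set (ι → ℤ)} (hX : PInv γ X)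
    (hA : PInv γ A) (hB : PInv γ B) : PSt (Tp γ) (Pv F π L X A B) := by
  intro j x hx
  have hv : ∀ c ∈ vz F π, Tp γ c ∈ vz F π := by
    intro c hc σ hσ
    rw [Free_Tp]
    refine hc _ fun v hv => ?_
    obtain ⟨w, hw, rfl⟩ := Finset.mem_map.1 hv
    have h1 := hσ w hw
    have h2 : (w ∘ γ) ∘ π = (w ∘ π) ∘ γ := by
      funext i
      exact congrArg w (Equiv.ext_iff.1 hγπ i)
    change (w ∘ γ) ∘ π = w ∘ γ
    rw [h2, h1]
  rw [Pv, Submodule.mem_sup] at hx ⊢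
  obtain ⟨a, ha, b, hb, rfl⟩ := hx
  exact ⟨Tp γ a, Free_T_mem hL hX hB ha, Tp γ b, ⟨Free_T_mem hL hX hA hb.1, hv b hb.2⟩,
    (map_add _ _ _).symm⟩

/-- **The `P`-part of the folded band.** If the `P`-part of the band `(A, B)` is Tate exact then
`γ'` acts as the identity on the cohomology of the band of the fixed grid. -/
theorem pco {p : ℕ} [Fact p.Prime] {π γ : Equiv.Perm ι} {γ' : Equiv.Perm κ} {s : ι → κ}
    {L : AddSubgroup (ι → ℤ)} {L' : AddSubgroup (κ → ℤ)} (hc : Cyc π p L) (hs : Fold π s L L')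
    {X A B : Set (ι → ℤ)} (hX : PInv π X) (hA : PInv π A) (hB : PInv π B) (hXL : Inv L X)
    (hAL : Inv L A) (hBL : Inv L B) (hAB : A ⊆ B) (hBX : B ⊆ X)
    (hγL : ∀ l ∈ L, l ∘ γ = l) (hγπ : γ * π = π * γ) (hXγ : PInv γ X) (hAγ : PInv γ A)
    (hBγ : PInv γ B) {u k : ℕ} (hk : (k : ZMod p) ≠ 0) (huk : γ ^ (u * k) = 1)
    (hγ' : ∀ i, s ((γ ^ u) i) = γ' (s i))
    (h : ∀ m, TK (dX (F := ZMod p) X) (ta (ZMod p) π) (nu (ZMod p) π p) m
      (PS (Pk ((Tp (F := ZMod p) γ) ^ u) k) (co (F := ZMod p) L X A))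
      (PS (Pk ((Tp (F := ZMod p) γ) ^ u) k) (co (F := ZMod p) L X B)) 0) (j : ℕ) :
    ∀ c ∈ co (F := ZMod p) L' (fo s B) (fo s A) (j + 1), dX (fo s B) c = 0 →
      ∃ y ∈ co (F := ZMod p) L' (fo s B) (fo s A) j, c - Tp γ' c = dX (fo s B) y := by
  classical
  have hγs : ∀ y : κ → ℤ, (y ∘ s) ∘ (γ ^ u : Equiv.Perm ι) = (y ∘ γ') ∘ s := by
    intro y
    funext i
    exact congrArg y (hγ' i)
  -- the operators
  have hTd : ∀ x : Co ι (ZMod p), Tp γ (dX X x) = dX X (Tp γ x) := fun x => (Free_dT hXγ x).symm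
  have hTT : ∀ x : Co ι (ZMod p), Tp γ (Tp π x) = Tp π (Tp γ x) := by
    intro x
    funext σ
    rw [Free_Tp, Free_Tp, Free_Tp, Free_Tp, ← Free_mul, ← Free_mul, hγπ]
  have hTt : ∀ x : Co ι (ZMod p), Tp γ (ta (ZMod p) π x) = ta (ZMod p) π (Tp γ x) := by
    intro x
    rw [Free_ta_apply, Free_ta_apply, map_sub, hTT]
  have hTn : ∀ x : Co ι (ZMod p), Tp γ (nu (ZMod p) π p x) = nu (ZMod p) π p (Tp γ x) := by
    intro x
    rw [Free_nu_apply, Free_nu_apply, map_sum]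
    have e : ∀ i, Tp γ (((Tp π) ^ i) x) = ((Tp π) ^ i) (Tp γ x) := by
      intro i
      induction i with
      | zero => rfl
      | succ i ih => rw [pow_succ', Module.End.mul_apply, Module.End.mul_apply, hTT, ih]
    exact Finset.sum_congr rfl fun i _ => e i
  have hTk : ∀ x : Co ι (ZMod p), ((Tp γ) ^ (u * k)) x = x := by
    intro x
    rw [Free_pow_p huk]
    rfl
  have hP := PC_Pk hTd hTt hTn u k hk hTk
  have hPB : PSt (Tp γ) (co (F := ZMod p) L X B) := fun j x hx => Free_T_mem hγL hXγ hBγ hx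
  have hPP : PSt (Tp γ) (Pv (ZMod p) π L X A B) := Pco_T_Pv hγπ hγL hXγ hAγ hBγ
  -- the free part
  have hfree := fun m => TK_PS hP (PSt_Pk hPB u k) (PSt_Pk hPP u k)
    (free_TK hc hX hA hB hXL hAL hBL hAB hBX m)
  have h1 := TK.quot (Cyc_ops hc hX) (PS_sub hP (Cyc_sub hc hX hB hXL))
    (fun j => PS_mono _ le_sup_left) (fun j => PS_mono _ (Loc_Pv_le hAB j)) (hfree (0 + 1)) (h 0)
  have h2 := RK_zero.1 h1
  -- the folded grid
  have hγ'L : ∀ l ∈ L', l ∘ γ' = l := by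
    intro l hl
    have e1 := Free_pow_fix (hγL _ ((hs.lat (l ∘ s)).2 ⟨l, hl, rfl⟩)) u
    rw [hγs] at e1
    funext i
    obtain ⟨i, rfl⟩ := hs.surj i
    exact congrFun e1 i
  have hfoI : ∀ Y : Set (ι → ℤ), PInv γ Y → PInv γ' (fo s Y) := by
    intro Y hY v
    have e1 : ∀ i : ℕ, ∀ w : ι → ℤ, w ∈ Y ↔ w ∘ (γ ^ i : Equiv.Perm ι) ∈ Y := by
      intro i
      induction i with
      | zero => exact fun w => Iff.rfl
      | succ i ih =>
        intro w
        rw [ih w, hY]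
        rfl
    have e2 := e1 u (v ∘ s)
    rw [hγs] at e2
    exact e2
  have hPC : PSt (Tp γ') (co (F := ZMod p) L' (fo s B) (fo s A)) := fun j x hx =>
    Free_T_mem hγ'L (hfoI B hBγ) (hfoI A hAγ) hx
  -- the main step
  have key : ∀ c ∈ co (F := ZMod p) L' (fo s B) (fo s A) (j + 1), dX (fo s B) c = 0 →
      Pk (Tp γ') k c = c → ∃ y ∈ co (F := ZMod p) L' (fo s B) (fo s A) j,
        c = dX (fo s B) y := by
    intro c hcm hdc hPc
    -- the extension
    have hΦ : TransN_ext hs.surj (ZMod p) c ∈ co (F := ZMod p) L X A (j + 1) :=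
      FixB_ext_mem hs hBX hcm
    have hPΦ : Pk ((Tp γ) ^ u) k (TransN_ext hs.surj (ZMod p) c) =
        TransN_ext hs.surj (ZMod p) c := by
      rw [Pco_ext_Pk hs.surj hγs, hPc]
    have hfix : ∀ σ, TransN_ext hs.surj (ZMod p) c σ ≠ 0 → ∀ v ∈ σ, v ∘ π = v := by
      intro σ hσ
      obtain ⟨σ', h3, _⟩ := TransN_ext_ne hs.surj hσ
      exact (TransN_fixed hs σ).2 ⟨σ', h3⟩
    have hres : ∀ c : Co κ (ZMod p),
        TransN_res hs.surj (ZMod p) (TransN_ext hs.surj (ZMod p) c) = c := by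
      intro c
      funext τ
      exact TransN_ext_map hs.surj c τ
    obtain ⟨y, hy, hyc⟩ := h2 (Pi.single (j + 1) (TransN_ext hs.surj (ZMod p) c)) (by
        rw [mem_sq]
        intro i
        by_cases hi : i = j + 1
        · subst hi
          rw [Pi.single_eq_same]
          exact mem_PS.2 ⟨hΦ, hPΦ⟩
        · rw [Pi.single_eq_of_ne hi]
          exact Submodule.zero_mem _) (by
        rw [mem_sq]
        intro i
        rw [TKb_single, TransN_the_supp hfix, smul_zero, Pi.single_zero, Pi.zero_apply, zero_add]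
        by_cases hi : i = j + 1 + 1
        · subst hi
          rw [Pi.single_eq_same]
          refine mem_PS.2 ⟨?_, by rw [hP.pd, hPΦ]⟩
          refine FixB_mem_Pv hBL (dX_mem hXL hΦ) fun σ hσ hσB => ?_
          obtain ⟨σ', rfl⟩ := (TransN_fixed hs σ).1 hσ
          rw [TransN_dX, hres, dX_apply]
          by_cases h3 : In (fo s X) σ'
          · rw [if_pos h3]
            have h4 : In (fo s B) σ' := ⟨h3.1, (TransN_all hs.surj B σ').1 hσB⟩
            have h5 := congrFun hdc σ'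
            rw [dX_apply, if_pos h4] at h5
            exact h5
          · rw [if_neg h3]
        · rw [Pi.single_eq_of_ne hi]
          exact Submodule.zero_mem _)
    rw [mem_sq] at hy hyc
    refine ⟨cut (In (fo s B)) (TransN_res hs.surj (ZMod p) (y j)),
      FixB_res_mem hs hBL (PS_le _ _ j (hy j)), ?_⟩
    funext σ'
    rw [dX_apply]
    by_cases h3 : In (fo s B) σ'
    · rw [if_pos h3]
      have hfx : ∀ v ∈ σ'.map (TransN_em hs.surj), v ∘ π = v := (TransN_fixed hs _).2 ⟨σ', rfl⟩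
      have h4 := TransN_Pv_zero (PS_le _ _ _ (hyc (j + 1))) hfx
        ((TransN_all hs.surj B σ').2 h3.2)
      rw [Pi.sub_apply, Pi.single_eq_same, Pi.sub_apply, TransN_ext_map, sub_eq_zero, del_succ,
        Pi.add_apply, Pi.smul_apply, TransN_the_fixed _ hfx, smul_zero, add_zero, TransN_dX,
        dX_apply, if_pos (TransN_In_mono (TransN_fo_mono s hBX) h3)] at h4
      rw [h4]
      refine Finset.sum_congr rfl fun v _ => ?_
      rw [cut_apply, if_pos (TransN_erase_In h3 v)]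
    · rw [if_neg h3]
      by_contra h4
      exact h3 (hcm.2 σ' h4).1
  -- the order of `γ'`
  have hγk : γ' ^ k = 1 := by
    refine Equiv.ext fun a => ?_
    obtain ⟨i, rfl⟩ := hs.surj a
    have e1 : ∀ m : ℕ, s (((γ ^ u) ^ m) i) = (γ' ^ m) (s i) := by
      intro m
      induction m with
      | zero => rfl
      | succ m ih =>
        rw [pow_succ', pow_succ', Equiv.Perm.mul_apply, Equiv.Perm.mul_apply, hγ', ih]
    rw [← e1 k, ← pow_mul, huk]
    rfl
  have hH'k : ∀ x : Co κ (ZMod p), ((Tp γ') ^ k) x = x := by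
    intro x
    rw [Free_pow_p hγk]
    rfl
  intro c hcm hdc
  refine key (c - Tp γ' c) (Submodule.sub_mem _ hcm (hPC _ c hcm)) ?_ (Pk_sub hH'k c)
  rw [map_sub, hdc, Free_dT (hfoI B hBγ), hdc, map_zero, sub_zero]

end Pool.Agent.H16.FU
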